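import Mathlib

namespace Pool.Agent.MP_913ab3_an

/-- `S r = ∑_{k ≥ 1} (-1)^(k+1) sinh y / sinh (k y)` with `y = arcosh r`; the sum runs over the
positive integers `k`. -/
noncomputable def S (r : ℝ) : ℝ :=
  ∑' k : ℕ+, (-1 : ℝ) ^ ((k : ℕ) + 1) *
    (Real.sinh (Real.arcosh r) / Real.sinh ((k : ℝ) * Real.arcosh r))

end Pool.Agent.MP_913ab3_an
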