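import Pool.Agent.MP_913ab3_an.Defs

namespace Pool.Agent.MP_913ab3_an

open Real Filter Topology Finset

/-- `a m y = 1 / (1 + exp ((2m+1) y))`. -/
noncomputable def a (m : ℕ) (y : ℝ) : ℝ := (1 + exp ((2 * m + 1) * y))⁻¹

/-- Partial sums of the transformed series. -/
noncomputable def U (N : ℕ) (y : ℝ) : ℝ := (exp y - exp (-y)) * ∑ m ∈ range N, a m y

/-- The series as a function of `y`. -/
noncomputable def T (y : ℝ) : ℝ := ∑' k : ℕ, (-1 : ℝ) ^ k * (sinh y / sinh ((k + 1) * y))

lemma a_pos (m : ℕ) (y : ℝ) : 0 < a m y := by unfold a; positivity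

lemma a_le_one (m : ℕ) (y : ℝ) : a m y ≤ 1 := by
  unfold a
  apply inv_le_one_of_one_le₀
  linarith [exp_pos ((2 * m + 1) * y)]

lemma hasDerivAt_a (m : ℕ) (y : ℝ) :
    HasDerivAt (a m) (-(2 * m + 1) * (a m y * (1 - a m y))) y := by
  have h1 : HasDerivAt (fun y : ℝ => 1 + exp ((2 * m + 1) * y))
      (exp ((2 * m + 1) * y) * (2 * m + 1)) y := by
    have := ((hasDerivAt_id y).const_mul (2 * (m : ℝ) + 1)).exp
    simpa using this.const_add 1
  have h2 : (1 + exp ((2 * m + 1) * y)) ≠ 0 := by positivity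
  refine (h1.inv h2).congr_deriv ?_
  unfold a
  field_simp
  ring

lemma a_mul_a (m : ℕ) (y : ℝ) :
    (exp y - exp (-y)) * (a m y * a (m + 1) y) = exp y * a (m + 1) y - exp (-y) * a m y := by
  unfold a
  have h1 : exp ((2 * ((m + 1 : ℕ) : ℝ) + 1) * y) = exp y * exp y * exp ((2 * m + 1) * y) := by
    rw [← exp_add, ← exp_add]; congr 1; push_cast; ring
  rw [h1, exp_neg]
  have h2 := exp_pos y
  have h3 := exp_pos ((2 * m + 1) * y)
  field_simp
  ring

/-- The derivative of `U N`. -/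
noncomputable def D (N : ℕ) (y : ℝ) : ℝ :=
  (exp y + exp (-y)) * ∑ m ∈ range N, a m y +
    (exp y - exp (-y)) * ∑ m ∈ range N, -(2 * m + 1) * (a m y * (1 - a m y))

lemma hasDerivAt_U (N : ℕ) (y : ℝ) : HasDerivAt (U N) (D N y) y := by
  have h1 : HasDerivAt (fun y : ℝ => exp y - exp (-y)) (exp y + exp (-y)) y := by
    have := (hasDerivAt_exp y).sub (hasDerivAt_neg y).exp
    refine this.congr_deriv ?_
    ring
  have h2 : HasDerivAt (fun y : ℝ => ∑ m ∈ range N, a m y)
      (∑ m ∈ range N, -(2 * m + 1) * (a m y * (1 - a m y))) y :=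
    HasDerivAt.fun_sum fun m _ => hasDerivAt_a m y
  exact h1.mul h2

lemma D_eq (N : ℕ) (y : ℝ) : D N y =
    (exp y - exp (-y)) * ∑ m ∈ range N, (m + 1) * (a m y - a (m + 1) y) ^ 2 +
      N * a N y * (2 * exp y - (exp y - exp (-y)) * a N y) := by
  induction N with
  | zero => simp [D]
  | succ N ih =>
    unfold D at ih ⊢
    rw [sum_range_succ, sum_range_succ, sum_range_succ]
    have h := a_mul_a N y
    push_cast
    linear_combination ih + 2 * (N + 1) * h

/-- A positive lower bound for the derivative. -/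
noncomputable def g (y : ℝ) : ℝ := (exp y - exp (-y)) * (a 0 y - a 1 y) ^ 2

lemma g_le_D (N : ℕ) {y : ℝ} (hy : 0 < y) : g y ≤ D (N + 1) y := by
  rw [D_eq, sum_range_succ', g]
  have h1 : 0 ≤ exp y - exp (-y) := sub_nonneg.mpr (exp_le_exp.mpr (by linarith))
  have h2 : 0 ≤ ∑ m ∈ range N, (((m + 1 : ℕ) : ℝ) + 1) * (a (m + 1) y - a (m + 1 + 1) y) ^ 2 :=
    sum_nonneg fun m _ => by positivity
  have h3 : 0 ≤ 2 * exp y - (exp y - exp (-y)) * a (N + 1) y := by
    have := mul_le_of_le_one_right h1 (a_le_one (N + 1) y)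
    linarith [exp_pos y, exp_pos (-y)]
  have h4 : 0 ≤ ((N + 1 : ℕ) : ℝ) * a (N + 1) y *
      (2 * exp y - (exp y - exp (-y)) * a (N + 1) y) :=
    mul_nonneg (mul_nonneg (by positivity) (a_pos _ _).le) h3
  have h5 := mul_nonneg h1 h2
  simp only [Nat.cast_zero, zero_add, one_mul]
  linarith

lemma g_pos {y : ℝ} (hy : 0 < y) : 0 < g y := by
  unfold g
  have h1 : 0 < exp y - exp (-y) := sub_pos.mpr (exp_lt_exp.mpr (by linarith))
  have h2 : a 1 y < a 0 y := by
    unfold a
    apply inv_strictAnti₀ (by positivity)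
    have : exp ((2 * ((0 : ℕ) : ℝ) + 1) * y) < exp ((2 * ((1 : ℕ) : ℝ) + 1) * y) :=
      exp_lt_exp.mpr (by push_cast; linarith)
    linarith
  have h3 : 0 < a 0 y - a 1 y := sub_pos.mpr h2
  positivity

lemma continuous_g : Continuous g := by
  have h : ∀ m, Continuous (a m) := fun m =>
    continuous_iff_continuousAt.mpr fun y => (hasDerivAt_a m y).continuousAt
  unfold g
  have h0 := h 0
  have h1 := h 1
  fun_prop

lemma U_gap {y y' : ℝ} (hy : 0 < y) (hyy : y < y') :
    ∃ c > 0, ∀ N, c ≤ U (N + 1) y' - U (N + 1) y := by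
  obtain ⟨z, hz, hmin⟩ := (isCompact_Icc (a := y) (b := y')).exists_isMinOn
    (Set.nonempty_Icc.mpr hyy.le) continuous_g.continuousOn
  refine ⟨g z * (y' - y), mul_pos (g_pos (lt_of_lt_of_le hy hz.1)) (sub_pos.mpr hyy), fun N => ?_⟩
  refine (convex_Icc y y').mul_sub_le_image_sub_of_le_deriv
    (fun x _ => (hasDerivAt_U (N + 1) x).continuousAt.continuousWithinAt)
    (fun x _ => (hasDerivAt_U (N + 1) x).differentiableAt.differentiableWithinAt) ?_
    y (Set.left_mem_Icc.mpr hyy.le) y' (Set.right_mem_Icc.mpr hyy.le) hyy.le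
  intro x hx
  have hx' := interior_subset hx
  rw [(hasDerivAt_U (N + 1) x).deriv]
  exact le_trans (hmin hx') (g_le_D N (lt_of_lt_of_le hy hx'.1))

/-- The double series. -/
noncomputable def t (y : ℝ) (k m : ℕ) : ℝ := (-1) ^ k * exp (-((k + 1) * (2 * m + 1) * y))

lemma summable_t {y : ℝ} (hy : 0 < y) : Summable (Function.uncurry (t y)) := by
  have hp0 : 0 ≤ exp (-y) := (exp_pos _).le
  have hp1 : exp (-y) < 1 := exp_lt_one_iff.mpr (by linarith)
  have h1 := summable_geometric_of_lt_one hp0 hp1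
  have h2 := h1.mul_of_nonneg h1 (fun k => by positivity) (fun k => by positivity)
  refine Summable.of_norm_bounded h2 ?_
  rintro ⟨k, m⟩
  simp only [Function.uncurry, t, norm_mul, norm_pow, norm_neg, norm_one, one_pow, one_mul,
    Real.norm_eq_abs, abs_exp]
  rw [← exp_nat_mul, ← exp_nat_mul, ← exp_add, exp_le_exp]
  have hk : (0 : ℝ) ≤ k := by positivity
  have hm : (0 : ℝ) ≤ m := by positivity
  have := mul_nonneg (mul_nonneg hk hm) hy.le
  have := mul_nonneg hm hy.le
  nlinarith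

lemma hasSum_t_right {y : ℝ} (hy : 0 < y) (k : ℕ) :
    HasSum (fun m => t y k m) ((-1) ^ k * (2 * sinh ((k + 1) * y))⁻¹) := by
  set x := ((k : ℝ) + 1) * y with hx
  have hx0 : 0 < x := by positivity
  have hp0 : 0 ≤ exp (-x) ^ 2 := by positivity
  have hp : exp (-x) < 1 := exp_lt_one_iff.mpr (by linarith)
  have hp1 : exp (-x) ^ 2 < 1 := pow_lt_one₀ (exp_pos _).le hp two_ne_zero
  have h1 := (hasSum_geometric_of_lt_one hp0 hp1).mul_left ((-1) ^ k * exp (-x))
  have e1 : (fun m => t y k m) = fun i => (-1) ^ k * exp (-x) * (exp (-x) ^ 2) ^ i := by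
    ext m
    unfold t
    rw [← pow_mul, ← exp_nat_mul, mul_assoc ((-1 : ℝ) ^ k), ← exp_add]
    congr 2
    push_cast
    ring
  have e2 : (-1) ^ k * (2 * sinh x)⁻¹ = (-1) ^ k * exp (-x) * (1 - exp (-x) ^ 2)⁻¹ := by
    rw [sinh_eq, mul_assoc]
    congr 1
    have h2 : exp x = (exp (-x))⁻¹ := by rw [exp_neg, inv_inv]
    have h3 := exp_pos (-x)
    have h4 : 1 - exp (-x) ^ 2 ≠ 0 := by linarith
    rw [h2]
    field_simp
  rw [e1, e2]
  exact h1

lemma hasSum_t_left {y : ℝ} (hy : 0 < y) (m : ℕ) : HasSum (fun k => t y k m) (a m y) := by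
  set x := (2 * (m : ℝ) + 1) * y with hx
  have hx0 : 0 < x := by positivity
  have hp : exp (-x) < 1 := exp_lt_one_iff.mpr (by linarith)
  have h3 := exp_pos (-x)
  have hp1 : |-exp (-x)| < 1 := by rwa [abs_neg, abs_of_pos h3]
  have h1 := (hasSum_geometric_of_abs_lt_one hp1).mul_left (exp (-x))
  have e1 : (fun k => t y k m) = fun i => exp (-x) * (-exp (-x)) ^ i := by
    ext k
    unfold t
    rw [neg_pow (exp (-x)), ← exp_nat_mul, mul_left_comm, ← exp_add]
    congr 2
    ring
  have e2 : a m y = exp (-x) * (1 - -exp (-x))⁻¹ := by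
    unfold a
    have h2 : exp x = (exp (-x))⁻¹ := by rw [exp_neg, inv_inv]
    rw [← hx, sub_neg_eq_add]
    nth_rewrite 1 [h2]
    field_simp
    ring
  rw [e1, e2]
  exact h1

lemma summable_a {y : ℝ} (hy : 0 < y) : Summable (fun m => a m y) := by
  have h := (summable_t hy).prod_symm.prod
  refine h.congr fun m => ?_
  exact (hasSum_t_left hy m).tsum_eq

lemma T_eq {y : ℝ} (hy : 0 < y) : T y = (exp y - exp (-y)) * ∑' m, a m y := by
  have h1 := (summable_t hy).tsum_comm
  simp only [(hasSum_t_right hy _).tsum_eq, (hasSum_t_left hy _).tsum_eq] at h1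
  rw [h1, ← tsum_mul_left, T]
  refine tsum_congr fun k => ?_
  rw [sinh_eq y]
  field_simp

lemma tendsto_U {y : ℝ} (hy : 0 < y) : Tendsto (fun N => U N y) atTop (𝓝 (T y)) := by
  rw [T_eq hy]
  exact (summable_a hy).hasSum.tendsto_sum_nat.const_mul _

theorem T_strictMonoOn : StrictMonoOn T (Set.Ioi 0) := by
  intro y hy y' hy' hyy
  obtain ⟨c, hc, h⟩ := U_gap hy hyy
  have h1 := ((tendsto_U hy').sub (tendsto_U hy)).comp (tendsto_add_atTop_nat 1)
  have h2 : c ≤ T y' - T y := ge_of_tendsto' h1 h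
  linarith

/-- An antiderivative of `-1 / (1 + exp s)`. -/
noncomputable def F (s : ℝ) : ℝ := log (1 + exp (-s))

lemma F_nonneg (s : ℝ) : 0 ≤ F s := log_nonneg (by linarith [exp_pos (-s)])

lemma F_sub (s s' : ℝ) : F s - F s' ≤ (exp (s' - s) - 1) * (1 + exp s')⁻¹ := by
  unfold F
  have h1 := exp_pos (-s)
  have h2 := exp_pos (-s')
  rw [← log_div (by positivity) (by positivity)]
  refine (log_le_sub_one_of_pos (by positivity)).trans_eq ?_
  rw [exp_sub, exp_neg, exp_neg]
  have h3 := exp_pos s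
  have h4 := exp_pos s'
  field_simp
  ring

lemma U_le (N : ℕ) (y : ℝ) : U N y ≤ exp y * (F y - F ((2 * N + 1) * y)) := by
  induction N with
  | zero => simp [U]
  | succ N ih =>
    unfold U at ih ⊢
    rw [sum_range_succ, mul_add]
    have h := mul_le_mul_of_nonneg_left
      (F_sub ((2 * ((N + 1 : ℕ) : ℝ) + 1) * y) ((2 * N + 1) * y)) (exp_pos y).le
    have h1 : exp y * exp ((2 * N + 1) * y - (2 * ((N + 1 : ℕ) : ℝ) + 1) * y) = exp (-y) := by
      rw [← exp_add]; congr 1; push_cast; ring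
    have h2 : exp y * ((exp ((2 * N + 1) * y - (2 * ((N + 1 : ℕ) : ℝ) + 1) * y) - 1) *
        (1 + exp ((2 * N + 1) * y))⁻¹) = -((exp y - exp (-y)) * a N y) := by
      rw [← h1, a]; ring
    rw [h2] at h
    linarith

lemma le_U (N : ℕ) (y : ℝ) : exp (-y) * (F (-y) - F ((2 * N - 1) * y)) ≤ U N y := by
  induction N with
  | zero => simp [U]
  | succ N ih =>
    unfold U at ih ⊢
    rw [sum_range_succ, mul_add]
    have h := mul_le_mul_of_nonneg_left
      (F_sub ((2 * N - 1) * y) ((2 * N + 1) * y)) (exp_pos (-y)).le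
    have h1 : exp (-y) * exp ((2 * N + 1) * y - (2 * N - 1) * y) = exp y := by
      rw [← exp_add]; congr 1; ring
    have h2 : exp (-y) * ((exp ((2 * N + 1) * y - (2 * N - 1) * y) - 1) *
        (1 + exp ((2 * N + 1) * y))⁻¹) = (exp y - exp (-y)) * a N y := by
      rw [← h1, a]; ring
    rw [h2] at h
    have h3 : (2 * ((N + 1 : ℕ) : ℝ) - 1) * y = (2 * N + 1) * y := by push_cast; ring
    rw [h3]
    linarith

lemma continuous_F : Continuous F := by
  unfold F
  refine Continuous.log (by fun_prop) fun s => ?_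
  positivity

lemma T_le {y : ℝ} (hy : 0 < y) : T y ≤ exp y * F y := by
  refine le_of_tendsto' (tendsto_U hy) fun N => (U_le N y).trans ?_
  have := F_nonneg ((2 * N + 1) * y)
  have := exp_pos y
  nlinarith

lemma le_T {y : ℝ} (hy : 0 < y) : exp (-y) * F (-y) ≤ T y := by
  have h1 : Tendsto (fun N : ℕ => -((2 * (N : ℝ) - 1) * y)) atTop atBot := by
    apply tendsto_neg_atTop_atBot.comp
    apply Tendsto.atTop_mul_const hy
    exact tendsto_atTop_add_const_right _ (-1)
      (tendsto_natCast_atTop_atTop.const_mul_atTop two_pos)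
  have h2 : Tendsto (fun N : ℕ => F ((2 * (N : ℝ) - 1) * y)) atTop (𝓝 0) := by
    have h3 := ((tendsto_exp_atBot.comp h1).const_add 1).log (by norm_num)
    simpa [F] using h3
  have h4 := (h2.const_sub (F (-y))).const_mul (exp (-y))
  rw [sub_zero] at h4
  exact le_of_tendsto_of_tendsto' h4 (tendsto_U hy) fun N => le_U N y

theorem tendsto_T : Tendsto T (𝓝[>] 0) (𝓝 (log 2)) := by
  have hF := continuous_F
  have h0 : F 0 = log 2 := by simp [F]; norm_num
  have h1 : Tendsto (fun y => exp y * F y) (𝓝[>] 0) (𝓝 (log 2)) := by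
    have : Continuous fun y => exp y * F y := by fun_prop
    have h := this.tendsto 0
    simp only [exp_zero, one_mul, h0] at h
    exact h.mono_left nhdsWithin_le_nhds
  have h2 : Tendsto (fun y => exp (-y) * F (-y)) (𝓝[>] 0) (𝓝 (log 2)) := by
    have : Continuous fun y => exp (-y) * F (-y) := by fun_prop
    have h := this.tendsto 0
    simp only [neg_zero, exp_zero, one_mul, h0] at h
    exact h.mono_left nhdsWithin_le_nhds
  refine tendsto_of_tendsto_of_tendsto_of_le_of_le' h2 h1 ?_ ?_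
  · filter_upwards [self_mem_nhdsWithin] with y hy using le_T hy
  · filter_upwards [self_mem_nhdsWithin] with y hy using T_le hy

lemma S_eq (r : ℝ) : S r = T (arcosh r) := by
  unfold S T
  rw [← Equiv.pnatEquivNat.symm.tsum_eq]
  refine tsum_congr fun k => ?_
  simp [pow_succ]

lemma tendsto_arcosh : Tendsto arcosh (𝓝[>] 1) (𝓝[>] 0) := by
  apply tendsto_nhdsWithin_iff.mpr
  constructor
  · have h := continuousOn_arcosh 1 (Set.mem_Ici.mpr le_rfl)
    have h1 := h.tendsto
    rw [arcosh_zero] at h1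
    exact h1.mono_left (nhdsWithin_mono _ Set.Ioi_subset_Ici_self)
  · filter_upwards [self_mem_nhdsWithin] with r hr using arcosh_pos hr

theorem tendsto_S : Tendsto S (𝓝[>] 1) (𝓝 (log 2)) := by
  have : S = T ∘ arcosh := funext S_eq
  rw [this]
  exact tendsto_T.comp tendsto_arcosh

theorem log_two_lt_T {y : ℝ} (hy : 0 < y) : log 2 < T y := by
  have h1 : log 2 ≤ T (y / 2) := by
    refine le_of_tendsto tendsto_T ?_
    filter_upwards [Ioo_mem_nhdsGT (half_pos hy)] with z hz
    exact (T_strictMonoOn hz.1 (half_pos hy) hz.2).le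
  exact h1.trans_lt (T_strictMonoOn (half_pos hy) hy (half_lt_self hy))

theorem main : StrictMonoOn (fun r => if r = 1 then log 2 else S r) (Set.Ici 1) := by
  intro r hr r' hr' hrr
  have hr1 : (1 : ℝ) ≤ r := hr
  have hr' : 1 < r' := lt_of_le_of_lt hr1 hrr
  simp only [if_neg hr'.ne', S_eq]
  split_ifs with h
  · exact log_two_lt_T (arcosh_pos hr')
  · have h1 : 1 < r := lt_of_le_of_ne hr1 (Ne.symm h)
    exact T_strictMonoOn (arcosh_pos h1) (arcosh_pos hr')
      ((arcosh_lt_arcosh (by linarith) (by linarith)).mpr hrr)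

theorem summable_abs {r : ℝ} (hr : 1 < r) : Summable fun k : ℕ+ => (-1 : ℝ) ^ ((k : ℕ) + 1) *
    (Real.sinh (Real.arcosh r) / Real.sinh ((k : ℝ) * Real.arcosh r)) := by
  have hy := arcosh_pos hr
  rw [← Equiv.pnatEquivNat.symm.summable_iff]
  have h := ((summable_t hy).prod).mul_left (2 * sinh (arcosh r))
  refine h.congr fun k => ?_
  simp only [Function.uncurry, (hasSum_t_right hy k).tsum_eq]
  simp [pow_succ]
  field_simp

end Pool.Agent.MP_913ab3_an
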